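import Mathlib
import Pool.Agent.H13R3.WB.Lin

/-!
# Project FR (MP_c890a7_co): rooted forests have balance constant `1/2 - O(exp (-c sqrt (log w)))`

Statements of the leaves. In a rooted forest (roots at the bottom: the elements below any element
form a chain) the probability that `x` comes before `y` is the probability that a sum of independent
exponential variables with rates in `ux x y` is smaller than one with rates in `ux y x`, the rates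
being the hook lengths `hk`.
-/

set_option autoImplicit false

open Finset MeasureTheory

namespace Pool.Agent.N502.FR

/-! ## Races -/

/-- all elements positive -/
def Pos (A : Finset ℕ) : Prop := ∀ a ∈ A, 1 ≤ a

/-- the properties of `K A B = P(∑_{a ∈ A} Exp(a) < ∑_{b ∈ B} Exp(b))` that are used -/
structure Race (K : Finset ℕ → Finset ℕ → ℝ) : Prop where
  step : ∀ (A B : Finset ℕ) (a b : ℕ), Pos A → Pos B → a ∈ A → b ∈ B →
    ((a : ℝ) + b) * K A B = a * K (A.erase a) B + b * K A (B.erase b)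
  left : ∀ A : Finset ℕ, Pos A → A.Nonempty → K A ∅ = 0
  right : ∀ B : Finset ℕ, Pos B → B.Nonempty → K ∅ B = 1

/-- sum of the reciprocals (the mean) -/
noncomputable def p1 (A : Finset ℕ) : ℝ := ∑ a ∈ A, 1 / (a : ℝ)

def S_JMP : Prop := ∀ K : Finset ℕ → Finset ℕ → ℝ, Race K → ∀ (A B : Finset ℕ) (b : ℕ),
  Pos A → Pos B → 1 ∈ A → 1 ≤ b → b ∉ B → K A (insert b B) ≤ K A B + 1 / (1 + (b : ℝ))

def S_CHE : Prop := ∀ K : Finset ℕ → Finset ℕ → ℝ, Race K → ∀ A B : Finset ℕ,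
  Pos A → Pos B → (A ∪ B).Nonempty →
    1 - K A B ≤ (∏ a ∈ A, (a : ℝ) / (a - 1 / 2)) * ∏ b ∈ B, (b : ℝ) / (b + 1 / 2)

def S_LGB : Prop := ∀ A B : Finset ℕ, Pos A → Pos B →
  1 / 2 < (∏ a ∈ A, (a : ℝ) / (a - 1 / 2)) * (∏ b ∈ B, (b : ℝ) / (b + 1 / 2)) → p1 B ≤ p1 A + 3

def S_HRM : Prop := ∀ (m : ℕ) (B : Finset ℕ), 1 ≤ m → Pos B →
  p1 (B.filter (fun b => b < 2 ^ m)) ≤ m

def S_CRX : Prop := S_JMP → S_CHE → S_LGB → S_HRM →
  ∀ K : Finset ℕ → Finset ℕ → ℝ, Race K → ∀ (m : ℕ) (A B : Finset ℕ), 1 ≤ m → Pos A → Pos B →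
    1 ∈ A →
    (∀ s ∈ B, 2 ^ m ≤ s → 2 * (1 / 2 : ℝ) ^ m < |K A (B.filter (fun b => s ≤ b)) - 1 / 2|) →
    p1 B ≤ p1 A + 3 + m

/-! ## The integral formula -/

/-- modulus of the characteristic function -/
noncomputable def rho (A : Finset ℕ) (t : ℝ) : ℝ := ∏ a ∈ A, 1 / √(1 + (t / a) ^ 2)

/-- argument of the characteristic function -/
noncomputable def th (A : Finset ℕ) (t : ℝ) : ℝ := ∑ a ∈ A, Real.arctan (t / a)

/-- the integrand -/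
noncomputable def kf (A B : Finset ℕ) (t : ℝ) : ℝ :=
  rho A t * rho B t * Real.sin (th A t - th B t) / t

/-- `P(∑_{a ∈ A} Exp(a) < ∑_{b ∈ B} Exp(b))` by Fourier inversion -/
noncomputable def KK (A B : Finset ℕ) : ℝ :=
  1 / 2 - (1 / Real.pi) * ∫ t in Set.Ioi (0 : ℝ), kf A B t

def S_INT : Prop := ∀ A B : Finset ℕ, Pos A → Pos B → (A ∪ B).Nonempty →
  IntegrableOn (kf A B) (Set.Ioi 0)

def S_STP : Prop := ∀ (A B : Finset ℕ) (a b : ℕ) (t : ℝ), Pos A → Pos B → a ∈ A → b ∈ B → 0 < t →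
  ((a : ℝ) + b) * kf A B t = a * kf (A.erase a) B t + b * kf A (B.erase b) t

def S_BAS : Prop := S_INT → ∀ A : Finset ℕ, Pos A → A.Nonempty →
  ∫ t in Set.Ioi (0 : ℝ), kf A ∅ t = Real.pi / 2

def S_RAC : Prop := S_INT → S_STP → S_BAS → Race KK ∧ ∀ A : Finset ℕ, KK A A = 1 / 2

/-! ## Two sets with the same small elements and nearly the same power sums -/

def S_ATN : Prop := ∀ (x : ℝ) (m : ℕ), |x| ≤ 1 / 2 →
  |Real.arctan x - ∑ j ∈ range m, (-1 : ℝ) ^ j * x ^ (2 * j + 1) / (2 * j + 1)| ≤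
    |x| ^ (2 * m + 1)

def S_SQS : Prop := ∀ (A : Finset ℕ) (y : ℝ), 1 ≤ y → (∀ a ∈ A, y < a) →
  ∑ a ∈ A, (1 / (a : ℝ)) ^ 2 ≤ 2 / y

def S_SML : Prop := S_ATN → S_SQS → ∀ (m : ℕ) (F A B : Finset ℕ) (R t : ℝ), 1 ≤ m →
  F ⊆ A → F ⊆ B → 1 / 2 ≤ R → (∀ h ∈ A \ F, 2 * R < h) → (∀ h ∈ B \ F, 2 * R < h) →
  (∀ j < m, R ^ (2 * j) * |∑ h ∈ A \ F, (1 / (h : ℝ)) ^ (2 * j + 1) -
    ∑ h ∈ B \ F, (1 / (h : ℝ)) ^ (2 * j + 1)| ≤ (1 / 4) ^ m) →
  0 < t → t ≤ R → |th A t - th B t| ≤ 4 * (1 / 2) ^ m * t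

def S_LRG : Prop := ∀ (m : ℕ) (F A B : Finset ℕ) (R t : ℝ), 1 ≤ m → F ⊆ A → F ⊆ B → 1 ∈ F →
  Pos A → Pos B → 1 / 2 ≤ R → ((F.card = 4 * m + 1 ∧ ∀ h ∈ F, (h : ℝ) ≤ 2 * R) ∨ R = 2 ^ m) →
  R < t → |kf A B t| ≤ 4 * (1 / 2) ^ m / (1 + t ^ 2)

def S_KEY : Prop := S_ATN → S_SQS → S_SML → S_LRG → ∀ (m : ℕ) (F A B : Finset ℕ) (R : ℝ), 1 ≤ m →
  F ⊆ A → F ⊆ B → 1 ∈ F → Pos A → Pos B → 1 / 2 ≤ R →
  (∀ h ∈ A \ F, 2 * R < h) → (∀ h ∈ B \ F, 2 * R < h) →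
  ((F.card = 4 * m + 1 ∧ ∀ h ∈ F, (h : ℝ) ≤ 2 * R) ∨ R = 2 ^ m) →
  (∀ j < m, R ^ (2 * j) * |∑ h ∈ A \ F, (1 / (h : ℝ)) ^ (2 * j + 1) -
    ∑ h ∈ B \ F, (1 / (h : ℝ)) ^ (2 * j + 1)| ≤ (1 / 4) ^ m) →
  |KK A B - 1 / 2| ≤ 2 * (1 / 2) ^ m

/-! ## Truncation and pigeonhole -/

/-- the `4 m + 1` smallest elements of `H`, among those at most `2 ^ (m + 1)` -/
def trn (m : ℕ) (H : Finset ℕ) : Finset ℕ :=
  H.filter (fun h => h ≤ 2 ^ (m + 1) ∧ (H.filter (fun g => g ≤ h)).card ≤ 4 * m + 1)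

/-- the radius belonging to a truncated set -/
noncomputable def rad (m : ℕ) (F : Finset ℕ) : ℝ :=
  if F.card = 4 * m + 1 then ((F.sup id : ℕ) : ℝ) / 2 else 2 ^ m

/-- scaled power sums of the large elements -/
noncomputable def mom (m j : ℕ) (H : Finset ℕ) : ℝ :=
  (rad m (trn m H)) ^ (2 * j) * ∑ h ∈ H \ trn m H, (1 / (h : ℝ)) ^ (2 * j + 1)

def S_TRN : Prop := ∀ (m : ℕ) (H : Finset ℕ), 1 ≤ m → Pos H → 1 ∈ H →
  1 ∈ trn m H ∧ trn m H ⊆ H ∧ (trn m H).card ≤ 4 * m + 1 ∧ (∀ h ∈ trn m H, h ≤ 2 ^ (m + 1)) ∧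
  (∀ h ∈ H, ∀ f ∈ trn m H, h ≤ f → h ∈ trn m H) ∧
  1 / 2 ≤ rad m (trn m H) ∧ rad m (trn m H) ≤ 2 ^ m ∧
  (∀ h ∈ H \ trn m H, 2 * rad m (trn m H) < h) ∧
  (((trn m H).card = 4 * m + 1 ∧ ∀ h ∈ trn m H, (h : ℝ) ≤ 2 * rad m (trn m H)) ∨
    rad m (trn m H) = 2 ^ m)

def S_MOM : Prop := S_SQS → S_TRN → ∀ (m j : ℕ) (H : Finset ℕ), 1 ≤ m → 1 ≤ j → Pos H → 1 ∈ H →
  0 ≤ mom m j H ∧ mom m j H ≤ 1

def S_CNT : Prop := ∀ N L : ℕ,
  ((Finset.range N).powerset.filter (fun F => F.card ≤ L)).card ≤ (N + 1) ^ L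

def S_PIG : Prop := S_SQS → S_TRN → S_MOM → S_CNT →
  ∀ (ι : Type) [Fintype ι] (H : ι → Finset ℕ) (m : ℕ), 1 ≤ m → (∀ i, Pos (H i) ∧ 1 ∈ H i) →
    (∀ i j, trn m (H i) = trn m (H j) → |mom m 0 (H i) - mom m 0 (H j)| ≤ m + 3) →
    2 ^ (24 * m ^ 2) < Fintype.card ι →
    ∃ i j, i ≠ j ∧ trn m (H i) = trn m (H j) ∧
      ∀ k < m, |mom m k (H i) - mom m k (H j)| ≤ (1 / 4) ^ m

/-! ## Forests -/

/-- rooted forest, roots at the bottom -/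
def DFor (P : Type) [PartialOrder P] : Prop := ∀ x y z : P, y ≤ x → z ≤ x → y ≤ z ∨ z ≤ y

/-- rooted forest, roots on top -/
def TFor (P : Type) [PartialOrder P] : Prop := ∀ x y z : P, x ≤ y → x ≤ z → y ≤ z ∨ z ≤ y

section

variable {P : Type} [Fintype P] [PartialOrder P]

open Classical in
/-- hook length: number of elements above `x` or equal to it -/
noncomputable def hk (x : P) : ℕ := (univ.filter (fun z : P => x ≤ z)).card

open Classical in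
/-- hook lengths of the elements outside of `J` below `x` but not below `y` -/
noncomputable def un (J : Finset P) (x y : P) : Finset ℕ :=
  (univ.filter (fun u : P => u ∉ J ∧ u ≤ x ∧ ¬ u ≤ y)).image hk

open Classical in
/-- hook lengths of the elements below `x` but not below `y` -/
noncomputable def ux (x y : P) : Finset ℕ := (univ.filter (fun u : P => u ≤ x ∧ ¬ u ≤ y)).image hk

open Classical in
/-- hook lengths of the common lower bounds of `x` and `y` -/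
noncomputable def sh (x y : P) : Finset ℕ := (univ.filter (fun u : P => u ≤ x ∧ u ≤ y)).image hk

open Classical in
/-- hook lengths of the elements below `x` -/
noncomputable def HH (x : P) : Finset ℕ := (univ.filter (fun u : P => u ≤ x)).image hk

open Classical in
/-- number of ways to complete the lower set `J` by `m` further elements -/
noncomputable def EE (m : ℕ) (J : Finset P) : ℕ :=
  Pool.Agent.H13R3.WB.D (fun I : Finset P => Pool.Agent.H13R3.WB.IsLow I) m J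

open Classical in
/-- the same with `x` before `y` -/
noncomputable def NN (x y : P) (m : ℕ) (J : Finset P) : ℕ :=
  Pool.Agent.H13R3.WB.D
    (fun I : Finset P => Pool.Agent.H13R3.WB.IsLow I ∧ (y ∈ I → x ∈ I)) m J

end

open Pool.Agent.H13R3.WB (IsLow prob)

open Classical in
def S_MNS : Prop := ∀ (P : Type) [Fintype P] [PartialOrder P], DFor P → ∀ (m : ℕ) (J : Finset P),
  IsLow J → J.card + m = Fintype.card P →
  ∑ p ∈ univ.filter (fun p : P => p ∉ J ∧ IsLow (insert p J)), hk p = m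

open Classical in
def S_HOO : Prop := S_MNS → ∀ (P : Type) [Fintype P] [PartialOrder P], DFor P →
  ∀ (m : ℕ) (J : Finset P), IsLow J → J.card + m = Fintype.card P →
  EE m J * ∏ v ∈ univ.filter (fun v : P => v ∉ J), hk v = m.factorial

def S_NNK : Prop := S_MNS → S_HOO → ∀ K : Finset ℕ → Finset ℕ → ℝ, Race K →
  ∀ (P : Type) [Fintype P] [PartialOrder P], DFor P → ∀ (x y : P), ¬ x ≤ y → ¬ y ≤ x →
  ∀ (m : ℕ) (J : Finset P), IsLow J → J.card + m = Fintype.card P → x ∉ J → y ∉ J →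
  (NN x y m J : ℝ) = EE m J * K (un J x y) (un J y x)

def S_PRB : Prop := S_MNS → S_HOO → S_NNK → ∀ K : Finset ℕ → Finset ℕ → ℝ, Race K →
  ∀ (P : Type) [Fintype P] [PartialOrder P], DFor P → ∀ (x y : P), ¬ x ≤ y → ¬ y ≤ x →
  prob P x y = K (ux x y) (ux y x)

def S_PTH : Prop := ∀ (P : Type) [Fintype P] [PartialOrder P], DFor P →
  (∀ x u v : P, u ≤ x → v ≤ x → (hk v ≤ hk u ↔ u ≤ v)) ∧
  (∀ x y : P, Pos (ux x y) ∧ Pos (HH x)) ∧
  (∀ x y : P, HH x = ux x y ∪ sh x y ∧ Disjoint (ux x y) (sh x y)) ∧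
  (∀ x y : P, ∀ a ∈ ux x y, ∀ s ∈ sh x y, a < s) ∧
  (∀ x : P, (∀ z, x ≤ z → z = x) → 1 ∈ HH x ∧ ∀ y, ¬ x ≤ y → 1 ∈ ux x y) ∧
  (∀ x y u : P, u ≤ y → ¬ u ≤ x →
    ux x u = ux x y ∧ ux u x = (ux y x).filter (fun b => hk u ≤ b)) ∧
  (∀ x y : P, ∀ b ∈ ux x y, ∃ u, u ≤ x ∧ ¬ u ≤ y ∧ hk u = b)

open Classical in
def S_MAX : Prop := ∀ (P : Type) [Fintype P] [PartialOrder P], DFor P → ∀ A : Finset P,
  IsAntichain (· ≤ ·) (A : Set P) →
  A.card ≤ (univ.filter (fun x : P => ∀ z, x ≤ z → z = x)).card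

def S_RNG : Prop := S_PTH → S_MNS → S_HOO → S_NNK → S_PRB → S_JMP → S_CHE → S_LGB → S_HRM →
  S_CRX → ∀ K : Finset ℕ → Finset ℕ → ℝ, Race K →
  ∀ (P : Type) [Fintype P] [PartialOrder P], DFor P → ∀ m : ℕ, 1 ≤ m →
  (∀ x y : P, ¬ x ≤ y → ¬ y ≤ x → 2 * (1 / 2 : ℝ) ^ m < |prob P x y - 1 / 2|) →
  ∀ x y : P, (∀ z, x ≤ z → z = x) → (∀ z, y ≤ z → z = y) → x ≠ y →
  |p1 (HH x) - p1 (HH y)| ≤ m + 3

def S_CLS : Prop := S_PTH → S_TRN → S_MNS → S_HOO → S_NNK → S_PRB → S_INT → S_STP → S_BAS →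
  S_RAC → S_ATN → S_SQS → S_SML → S_LRG → S_KEY →
  ∀ (P : Type) [Fintype P] [PartialOrder P], DFor P → ∀ m : ℕ, 1 ≤ m →
  ∀ x y : P, (∀ z, x ≤ z → z = x) → (∀ z, y ≤ z → z = y) → x ≠ y →
  trn m (HH x) = trn m (HH y) → (∀ k < m, |mom m k (HH x) - mom m k (HH y)| ≤ (1 / 4) ^ m) →
  |prob P x y - 1 / 2| ≤ 2 * (1 / 2) ^ m

def S_DUA : Prop := ∀ (P : Type) [Fintype P] [PartialOrder P] (x y : P),
  prob Pᵒᵈ (OrderDual.toDual x) (OrderDual.toDual y) = prob P y x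

end Pool.Agent.N502.FR
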