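import Mathlib
import Pool.Agent.N502.FR.Low

/-!
# Rooted forests: assembly
-/

set_option autoImplicit false

open Finset

namespace Pool.Agent.N502.FR

open Pool.Agent.N502.IO
open Pool.Agent.H13R3.WB (prob balance)
open Pool.Agent.H581.KS (Good)
open Pool.Agent.H931R3.Bal (HasWidth balance_nonneg prob_eq pr_add)

/-- all leaves -/
structure Leaves : Prop where
  JMP : S_JMP
  CHE : S_CHE
  LGB : S_LGB
  HRM : S_HRM
  CRX : S_CRX
  INT : S_INT
  STP : S_STP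
  BAS : S_BAS
  RAC : S_RAC
  ATN : S_ATN
  SQS : S_SQS
  SML : S_SML
  LRG : S_LRG
  KEY : S_KEY
  TRN : S_TRN
  MOM : S_MOM
  CNT : S_CNT
  PIG : S_PIG
  MNS : S_MNS
  HOO : S_HOO
  NNK : S_NNK
  PRB : S_PRB
  PTH : S_PTH
  MAX : S_MAX
  RNG : S_RNG
  CLS : S_CLS
  DUA : S_DUA

theorem mom_zero (m : ℕ) (H : Finset ℕ) (hsub : trn m H ⊆ H) :
    mom m 0 H = p1 H - p1 (trn m H) := by
  unfold mom p1
  rw [← Finset.sum_sdiff hsub]
  simp

theorem down (L : Leaves) (P : Type) [Fintype P] [PartialOrder P] (hP : DFor P) (m : ℕ)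
    (hm : 1 ≤ m) (A : Finset P) (hA : IsAntichain (· ≤ ·) (A : Set P))
    (hc : 2 ^ (24 * m ^ 2) < A.card) :
    ∃ x y : P, ¬ x ≤ y ∧ ¬ y ≤ x ∧ |prob P x y - 1 / 2| ≤ 2 * (1 / 2 : ℝ) ^ m := by
  classical
  by_contra hcon
  push Not at hcon
  have hcon' : ∀ x y : P, ¬ x ≤ y → ¬ y ≤ x → 2 * (1 / 2 : ℝ) ^ m < |prob P x y - 1 / 2| :=
    fun x y h1 h2 => hcon x y h1 h2
  obtain ⟨t1, t2, t3, t4, t5, t6, t7⟩ := L.PTH P hP
  have hcard : 2 ^ (24 * m ^ 2) < Fintype.card {x : P // ∀ z, x ≤ z → z = x} := by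
    have h := L.MAX P hP A hA
    rw [Fintype.card_subtype]
    convert hc.trans_le h using 2
  have hR := L.RAC L.INT L.STP L.BAS
  have hpos : ∀ i : {x : P // ∀ z, x ≤ z → z = x}, Pos (HH i.1) ∧ 1 ∈ HH i.1 :=
    fun i => ⟨(t2 i.1 i.1).2, (t5 i.1 i.2).1⟩
  have hrange : ∀ i j : {x : P // ∀ z, x ≤ z → z = x}, trn m (HH i.1) = trn m (HH j.1) →
      |mom m 0 (HH i.1) - mom m 0 (HH j.1)| ≤ m + 3 := by
    intro i j hij
    rw [mom_zero m _ (L.TRN m _ hm (hpos i).1 (hpos i).2).2.1,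
      mom_zero m _ (L.TRN m _ hm (hpos j).1 (hpos j).2).2.1, hij]
    by_cases h : i = j
    · subst h
      simp only [sub_self, abs_zero]
      positivity
    · have := L.RNG L.PTH L.MNS L.HOO L.NNK L.PRB L.JMP L.CHE L.LGB L.HRM L.CRX KK hR.1 P hP m hm
        hcon' i.1 j.1 i.2 j.2 (fun h' => h (Subtype.ext h'))
      rwa [sub_sub_sub_cancel_right]
  obtain ⟨i, j, hij, htr, hmo⟩ := L.PIG L.SQS L.TRN L.MOM L.CNT {x : P // ∀ z, x ≤ z → z = x}
    (fun i => HH i.1) m hm hpos hrange hcard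
  have hne : i.1 ≠ j.1 := fun h => hij (Subtype.ext h)
  have h1 := L.CLS L.PTH L.TRN L.MNS L.HOO L.NNK L.PRB L.INT L.STP L.BAS L.RAC L.ATN L.SQS L.SML
    L.LRG L.KEY P hP m hm i.1 j.1 i.2 j.2 hne htr hmo
  have h2 := hcon' i.1 j.1 (fun h => hne (i.2 _ h).symm) (fun h => hne (j.2 _ h))
  linarith

theorem top (L : Leaves) (P : Type) [Fintype P] [PartialOrder P] (hP : TFor P) (m : ℕ)
    (hm : 1 ≤ m) (A : Finset P) (hA : IsAntichain (· ≤ ·) (A : Set P))
    (hc : 2 ^ (24 * m ^ 2) < A.card) :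
    ∃ x y : P, ¬ x ≤ y ∧ ¬ y ≤ x ∧ |prob P x y - 1 / 2| ≤ 2 * (1 / 2 : ℝ) ^ m := by
  have hD : DFor Pᵒᵈ := fun x y z h1 h2 =>
    (hP (OrderDual.ofDual x) (OrderDual.ofDual y) (OrderDual.ofDual z) h1 h2).symm
  have hA' : IsAntichain (· ≤ ·)
      ((A.map (OrderDual.toDual (α := P)).toEmbedding : Finset Pᵒᵈ) : Set Pᵒᵈ) := by
    intro a ha b hb hne hle
    rw [Finset.mem_coe, Finset.mem_map] at ha hb
    obtain ⟨a', ha', rfl⟩ := ha
    obtain ⟨b', hb', rfl⟩ := hb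
    exact hA (Finset.mem_coe.2 hb') (Finset.mem_coe.2 ha') (fun h => hne (by rw [h])) hle
  obtain ⟨x, y, h1, h2, h3⟩ := down L Pᵒᵈ hD m hm _ hA' (by rwa [Finset.card_map])
  refine ⟨OrderDual.ofDual y, OrderDual.ofDual x, h1, h2, ?_⟩
  have := L.DUA P (OrderDual.ofDual x) (OrderDual.ofDual y)
  simp only [OrderDual.toDual_ofDual] at this
  rwa [← this]

theorem bal_of_pair {P : Type} [Fintype P] [PartialOrder P] {x y : P} {e : ℝ} (hxy : ¬ x ≤ y)
    (h : |prob P x y - 1 / 2| ≤ e) : 1 / 2 - e ≤ balance P := by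
  have hne : x ≠ y := fun h => hxy (le_of_eq h)
  have h1 := Pool.Agent.H931R3.Bal.le_balance x y
  have h2 := pr_add (P := P) rfl hne
  rw [← prob_eq rfl, ← prob_eq rfl] at h2
  rw [abs_le] at h
  refine le_trans (le_min ?_ ?_) h1 <;> linarith [h.1, h.2]

theorem forest_balance (L : Leaves) (P : Type) [Fintype P] [PartialOrder P] (hP : TFor P) {w : ℕ}
    (hw : 1 ≤ w) (h : HasWidth P w) :
    1 / 2 - 4 * Real.exp (-(√(Real.log w) / 10)) ≤ balance P := by
  have hne := nonempty_of_width h hw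
  obtain ⟨⟨A, hA, hAc⟩, -⟩ := h
  have hl2 : 0 < Real.log 2 := Real.log_pos (by norm_num)
  have hl2' := Real.log_two_gt_d9
  set s := √(Real.log w) with hs
  have hs0 : 0 ≤ s := Real.sqrt_nonneg _
  set m : ℕ := ⌊s / (10 * Real.log 2)⌋₊ with hmdef
  have hm1 : (m : ℝ) ≤ s / (10 * Real.log 2) := Nat.floor_le (by positivity)
  have hm2 : s / (10 * Real.log 2) < m + 1 := Nat.lt_floor_add_one _
  have hm3 : s / 10 - Real.log 2 < m * Real.log 2 := by
    rw [div_lt_iff₀ (by positivity)] at hm2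
    linarith
  rcases Nat.eq_zero_or_pos m with h0 | h0
  · have h1 : s / 10 < Real.log 2 := by
      rw [h0] at hm3
      push_cast at hm3
      linarith
    have h2 : 1 / 2 < Real.exp (-(s / 10)) := by
      rw [show (1 / 2 : ℝ) = Real.exp (-Real.log 2) by
        rw [Real.exp_neg, Real.exp_log (by norm_num)]; norm_num]
      exact Real.exp_lt_exp.2 (by linarith)
    have h3 : 0 ≤ balance P := balance_nonneg
    linarith
  · have hm4 : (1 : ℝ) ≤ m := by exact_mod_cast h0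
    have hspos : 0 < s := by
      rw [le_div_iff₀ (by positivity)] at hm1
      nlinarith
    have hlogw : 0 < Real.log w := Real.sqrt_pos.1 hspos
    have hss : s ^ 2 = Real.log w := Real.sq_sqrt hlogw.le
    have hms : (m : ℝ) * (10 * Real.log 2) ≤ s := by
      rwa [le_div_iff₀ (by positivity)] at hm1
    have hlt : 24 * (m : ℝ) ^ 2 * Real.log 2 < Real.log w := by
      have h1 : ((m : ℝ) * (10 * Real.log 2)) ^ 2 ≤ s ^ 2 := by
        apply pow_le_pow_left₀ (by positivity) hms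
      rw [hss] at h1
      have h2 : 24 * (m : ℝ) ^ 2 * Real.log 2 < ((m : ℝ) * (10 * Real.log 2)) ^ 2 := by
        have h3 : 0 < (m : ℝ) ^ 2 * Real.log 2 := by positivity
        nlinarith
      linarith
    have hcard : 2 ^ (24 * m ^ 2) < A.card := by
      rw [hAc]
      have hw0 : (0 : ℝ) < w := by exact_mod_cast hw
      have h1 : ((2 : ℝ) ^ (24 * m ^ 2)) < w := by
        rw [← Real.log_lt_log_iff (by positivity) hw0, Real.log_pow]
        push_cast
        exact hlt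
      exact_mod_cast h1
    obtain ⟨x, y, hxy, _, hb⟩ := top L P hP m h0 A hA hcard
    refine le_trans ?_ (bal_of_pair hxy hb)
    have h5 : (1 / 2 : ℝ) ^ m = Real.exp (-(m * Real.log 2)) := by
      rw [Real.exp_neg, mul_comm, Real.exp_mul, Real.exp_log (by norm_num), Real.rpow_natCast]
      simp
    have h6 : Real.exp (-(m * Real.log 2)) ≤ 2 * Real.exp (-(s / 10)) := by
      have : (2 : ℝ) * Real.exp (-(s / 10)) = Real.exp (Real.log 2 + -(s / 10)) := by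
        rw [Real.exp_add, Real.exp_log (by norm_num)]
      rw [this]
      exact Real.exp_le_exp.2 (by linarith)
    rw [h5]
    linarith

/-- infimum of the balance constants of the rooted forests of width `w` -/
noncomputable def dF (w : ℕ) : ℝ :=
  sInf {d : ℝ | ∃ (P : Type) (_ : Fintype P) (_ : PartialOrder P), TFor P ∧ HasWidth P w ∧
    balance P = d}

theorem dF_le {w : ℕ} (hw : 1 ≤ w) : dF w ≤ 1 / 2 - 1 / (12 * (w : ℝ) - 8) := by
  obtain ⟨n, X, hn, -, ⟨P, i1, i2, h1, h2, h3, h4, -⟩, -, -⟩ := low_family_F w hw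
  have hne : Nonempty P := nonempty_of_width (w := w) h2 hw
  refine le_trans ?_ (balance_of_good (low_eps hw) h3)
  unfold dF
  apply csInf_le
  · refine ⟨0, ?_⟩
    rintro d ⟨Q, _, _, _, h4, rfl⟩
    have := nonempty_of_width h4 hw
    exact balance_nonneg
  · exact ⟨P, i1, i2, h4, h2, rfl⟩

theorem dF_ge (L : Leaves) {w : ℕ} (hw : 1 ≤ w) :
    1 / 2 - 4 * Real.exp (-(√(Real.log w) / 10)) ≤ dF w := by
  obtain ⟨n, X, hn, -, ⟨P, i1, i2, h1, h2, h3, h4, -⟩, -, -⟩ := low_family_F w hw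
  unfold dF
  apply le_csInf
  · exact ⟨_, P, i1, i2, h4, h2, rfl⟩
  · rintro d ⟨Q, _, _, h1, h2, rfl⟩
    exact forest_balance L Q h1 hw h2

theorem dF_growth (L : Leaves) {w v : ℕ} (hw : 1 ≤ w)
    (hv : Real.exp (3600 * Real.log ((w : ℝ) + 1) ^ 2) ≤ v) : dF w < dF v := by
  have hv0 : (0 : ℝ) < v := (Real.exp_pos _).trans_le hv
  have hv1 : 1 ≤ v := by exact_mod_cast hv0
  have hw1 : (1 : ℝ) ≤ w := by exact_mod_cast hw
  have h1 := dF_le hw
  have h2 := dF_ge L hv1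
  have hlog : 0 ≤ Real.log ((w : ℝ) + 1) := Real.log_nonneg (by linarith)
  have h3 : 3600 * Real.log ((w : ℝ) + 1) ^ 2 ≤ Real.log v := by
    rw [← Real.log_exp (3600 * Real.log ((w : ℝ) + 1) ^ 2)]
    exact Real.log_le_log (Real.exp_pos _) hv
  have h4 : 60 * Real.log ((w : ℝ) + 1) ≤ √(Real.log v) := by
    apply Real.le_sqrt_of_sq_le
    nlinarith
  have h5 : Real.exp (-(√(Real.log v) / 10)) ≤ 1 / ((w : ℝ) + 1) ^ 6 := by
    have h6 : (1 : ℝ) / ((w : ℝ) + 1) ^ 6 = Real.exp (-(6 * Real.log ((w : ℝ) + 1))) := by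
      rw [Real.exp_neg, mul_comm, Real.exp_mul, Real.exp_log (by linarith), one_div]
      norm_num
    rw [h6]
    exact Real.exp_le_exp.2 (by linarith)
  have h7 : 4 * (1 / ((w : ℝ) + 1) ^ 6) < 1 / (12 * (w : ℝ) - 8) := by
    rw [mul_one_div, div_lt_div_iff₀ (by positivity) (by linarith)]
    have h8 : (16 : ℝ) ≤ ((w : ℝ) + 1) ^ 4 := by
      have : (2 : ℝ) ^ 4 ≤ ((w : ℝ) + 1) ^ 4 := pow_le_pow_left₀ (by norm_num) (by linarith) 4
      linarith
    have h9 : ((w : ℝ) + 1) ^ 6 = ((w : ℝ) + 1) ^ 4 * ((w : ℝ) + 1) ^ 2 := by ring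
    rw [h9]
    nlinarith [sq_nonneg ((w : ℝ) - 1), sq_nonneg ((w : ℝ) + 1)]
  linarith

end Pool.Agent.N502.FR
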