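import Mathlib
import Pool.Agent.N502.FR.Fin
import Pool.Agent.N654.FR_JMP
import Pool.Agent.N769.FR_CHE
import Pool.Agent.N488.FR_LGB
import Pool.Agent.N434.FR_HRM
import Pool.Agent.N454.FR_CRX
import Pool.Agent.N755.FR_INT
import Pool.Agent.N262.FR_STP
import Pool.Agent.N359.FR_BAS
import Pool.Agent.N265.FR_RAC
import Pool.Agent.N866.FR_ATN
import Pool.Agent.N887.FR_SQS
import Pool.Agent.N707.FR_SML
import Pool.Agent.N488.FR_LRG
import Pool.Agent.N134.FR_KEY
import Pool.Agent.N296.FR_TRN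
import Pool.Agent.N322.FR_MOM
import Pool.Agent.N255.FR_CNT
import Pool.Agent.N301.FR_PIG
import Pool.Agent.N853.FR_MNS
import Pool.Agent.N747.FR_HOO
import Pool.Agent.N507.FR_NNK
import Pool.Agent.N953.FR_PRB
import Pool.Agent.N849.FR_PTH
import Pool.Agent.N456.FR_MAX
import Pool.Agent.N665.FR_RNG
import Pool.Agent.N897.FR_CLS
import Pool.Agent.N451.FR_DUA

/-!
# Rooted forests: all leaves together
-/

set_option autoImplicit false

namespace Pool.Agent.N502.FR

theorem leaves : Leaves where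
  JMP := Pool.Agent.N654.FR_JMP.main
  CHE := Pool.Agent.N769.FR_CHE.main
  LGB := Pool.Agent.N488.FR_LGB.main
  HRM := Pool.Agent.N434.FRH.main
  CRX := Pool.Agent.N454.FR_CRX.main
  INT := Pool.Agent.N755.FR.main
  STP := Pool.Agent.N262.FR_STP.main
  BAS := Pool.Agent.N359.FRBAS.main
  RAC := Pool.Agent.N265.FR.main
  ATN := Pool.Agent.N866.FR_ATN.main
  SQS := Pool.Agent.N887.FR_SQS.main
  SML := Pool.Agent.N707.FR_SML.main
  LRG := Pool.Agent.N488.FR_LRG.main
  KEY := Pool.Agent.N134.FR_KEY.main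
  TRN := Pool.Agent.N296.FRTRN.main
  MOM := Pool.Agent.N322.FR_MOM.main
  CNT := Pool.Agent.N255.FR.main
  PIG := Pool.Agent.N301.FRPIG.main
  MNS := Pool.Agent.N853.FRMNS.main
  HOO := Pool.Agent.N747.FR_HOO.main
  NNK := Pool.Agent.N507.FR_NNK.main
  PRB := Pool.Agent.N953.FR_PRB.main
  PTH := Pool.Agent.N849.FR_PTH.main
  MAX := Pool.Agent.N456.FR_MAX.main
  RNG := Pool.Agent.N665.FR_RNG.main
  CLS := Pool.Agent.N897.FR.CLS.main
  DUA := Pool.Agent.N451.FRDUA.main

end Pool.Agent.N502.FR
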